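import Pool.Agent.Lib.MP_870dc7_co.Dens

set_option autoImplicit false

namespace Pool.Agent.Results.MP_870dc7_co.LinearThreshold

open Filter Pool.Agent.Lib.MP_870dc7_co

/-- The counting function `B(N) = |B ∩ {1, …, N}|` of a set `B` of positive integers. -/
noncomputable def cnt (B : Set ℕ+) (N : ℕ+) : ℕ := (B ∩ Set.Icc 1 N).ncard

/-- A growth function: a non-decreasing map from the positive integers to the positive integers
which tends to infinity. -/
def IsGrowth (H : ℕ+ → ℕ+) : Prop := Monotone H ∧ Tendsto H atTop atTop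

/-- The assertion of Q1 for the growth function `H`: some 2-coloring `χ` of the positive integers
has the property that whenever `B` and `C` are infinite and `B + C` lies in one color class,
`max {B(N), C(N)} < H(N)` holds for all but finitely many `N`. -/
def HasSparseColoring (H : ℕ+ → ℕ+) : Prop :=
  ∃ χ : ℕ+ → Fin 2, ∀ B C : Set ℕ+, B.Infinite → C.Infinite →
    (∃ i : Fin 2, ∀ b ∈ B, ∀ c ∈ C, χ (b + c) = i) →
      {N : ℕ+ | ¬ (max (cnt B N) (cnt C N) < (H N : ℕ))}.Finite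

section counting

theorem finite_inter_Icc (B : Set ℕ+) (N : ℕ+) : (B ∩ Set.Icc 1 N).Finite :=
  (Set.finite_Icc 1 N).subset Set.inter_subset_right

theorem cnt_mono {B C : Set ℕ+} (h : B ⊆ C) (N : ℕ+) : cnt B N ≤ cnt C N :=
  Set.ncard_le_ncard (Set.inter_subset_inter_left _ h) (finite_inter_Icc C N)

theorem cnt_univ (N : ℕ+) : cnt Set.univ N = (N : ℕ) := by
  unfold cnt
  rw [Set.univ_inter, ← Finset.coe_Icc, Set.ncard_coe_finset, PNat.card_Icc]
  simp

theorem cnt_le (B : Set ℕ+) (N : ℕ+) : cnt B N ≤ (N : ℕ) := by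
  rw [← cnt_univ N]; exact cnt_mono (Set.subset_univ _) N

theorem cnt_union_le (B C : Set ℕ+) (N : ℕ+) : cnt (B ∪ C) N ≤ cnt B N + cnt C N := by
  unfold cnt
  rw [Set.union_inter_distrib_right]
  exact Set.ncard_union_le _ _

theorem cnt_le_ncard {B : Set ℕ+} (hB : B.Finite) (N : ℕ+) : cnt B N ≤ B.ncard :=
  Set.ncard_le_ncard Set.inter_subset_left hB

theorem cnt_inter_Icc (B : Set ℕ+) (N : ℕ+) : cnt (B ∩ Set.Icc 1 N) N = cnt B N := by
  unfold cnt
  rw [Set.inter_assoc, Set.inter_self]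

end counting

section negative

variable (H : ℕ+ → ℕ+)

/-- sets whose counting function is `O(H)` -/
def Small (X : Set ℕ+) : Prop := ∃ K : ℕ, ∀ N : ℕ+, cnt X N ≤ K * (H N : ℕ)

theorem Small.mono {X Y : Set ℕ+} (hXY : X ⊆ Y) (hY : Small H Y) : Small H X := by
  obtain ⟨K, hK⟩ := hY
  exact ⟨K, fun N => (cnt_mono hXY N).trans (hK N)⟩

theorem Small.union {X Y : Set ℕ+} (hX : Small H X) (hY : Small H Y) : Small H (X ∪ Y) := by
  obtain ⟨K, hK⟩ := hX
  obtain ⟨K', hK'⟩ := hY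
  refine ⟨K + K', fun N => ?_⟩
  have h1 := cnt_union_le X Y N
  have h2 := hK N
  have h3 := hK' N
  calc cnt (X ∪ Y) N ≤ cnt X N + cnt Y N := h1
    _ ≤ K * (H N : ℕ) + K' * (H N : ℕ) := Nat.add_le_add h2 h3
    _ = (K + K') * (H N : ℕ) := by ring

theorem small_empty : Small H ∅ := ⟨0, fun N => by simp [cnt]⟩

/-- the dual filter of the ideal of small sets -/
def cosmall : Filter ℕ+ where
  sets := {X | Small H Xᶜ}
  univ_sets := by
    show Small H _
    rw [Set.compl_univ]; exact small_empty H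
  sets_of_superset := by
    intro X Y hX hXY
    exact Small.mono H (Set.compl_subset_compl.mpr hXY) hX
  inter_sets := by
    intro X Y hX hY
    show Small H _
    rw [Set.compl_inter]
    exact Small.union H hX hY

theorem not_small_univ (hlin : ¬ ∃ ε : ℝ, 0 < ε ∧ ∀ N : ℕ+, ε * ((N : ℕ) : ℝ) ≤ ((H N : ℕ) : ℝ)) :
    ¬ Small H Set.univ := by
  rintro ⟨K, hK⟩
  apply hlin
  have hK0 : 0 < K := by
    rcases Nat.eq_zero_or_pos K with h | h
    · have := hK 1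
      rw [cnt_univ, h] at this
      simp at this
    · exact h
  refine ⟨1 / K, by positivity, fun N => ?_⟩
  have h1 := hK N
  rw [cnt_univ] at h1
  have h2 : ((N : ℕ) : ℝ) ≤ K * ((H N : ℕ) : ℝ) := by exact_mod_cast h1
  have h3 : (0 : ℝ) < K := by exact_mod_cast hK0
  rw [one_div, inv_mul_le_iff₀ h3]
  exact h2

theorem exists_ultrafilter
    (hlin : ¬ ∃ ε : ℝ, 0 < ε ∧ ∀ N : ℕ+, ε * ((N : ℕ) : ℝ) ≤ ((H N : ℕ) : ℝ)) :
    ∃ q : Ultrafilter ℕ+, ∀ X ∈ q, ¬ Small H X := by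
  have hne : (cosmall H).NeBot := by
    refine ⟨fun hbot => ?_⟩
    have h : ∅ ∈ cosmall H := Filter.empty_mem_iff_bot.mpr hbot
    have h' : Small H (∅ : Set ℕ+)ᶜ := h
    rw [Set.compl_empty] at h'
    exact not_small_univ H hlin h'
  refine ⟨Ultrafilter.of (cosmall H), fun X hX hsm => ?_⟩
  have h1 : Xᶜ ∈ cosmall H := by
    show Small H _
    rwa [compl_compl]
  have h2 : Xᶜ ∈ Ultrafilter.of (cosmall H) := Ultrafilter.of_le (cosmall H) h1
  exact (Ultrafilter.compl_notMem_iff.mpr hX) h2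

theorem large_of_not_small {X : Set ℕ+} (hX : ¬ Small H X) (n : ℕ) :
    ∃ N : ℕ+, n < (N : ℕ) ∧ (H N : ℕ) ≤ cnt X N := by
  unfold Small at hX
  push Not at hX
  obtain ⟨N, hN⟩ := hX (n + 1)
  have h1 : 1 ≤ (H N : ℕ) := (H N).pos
  have h2 := cnt_le X N
  refine ⟨N, ?_, ?_⟩
  · have : (n + 1) * 1 ≤ (n + 1) * (H N : ℕ) := Nat.mul_le_mul_left _ h1
    omega
  · have : 1 * (H N : ℕ) ≤ (n + 1) * (H N : ℕ) := Nat.mul_le_mul_right _ (by omega)
    omega

theorem exists_dense_pair (hH : IsGrowth H)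
    (hlin : ¬ ∃ ε : ℝ, 0 < ε ∧ ∀ N : ℕ+, ε * ((N : ℕ) : ℝ) ≤ ((H N : ℕ) : ℝ))
    (χ : ℕ+ → Fin 2) :
    ∃ B C : Set ℕ+, B.Infinite ∧ C.Infinite ∧ (∃ i : Fin 2, ∀ b ∈ B, ∀ c ∈ C, χ (b + c) = i) ∧
      (∀ n : ℕ, ∃ N : ℕ+, n < (N : ℕ) ∧ (H N : ℕ) ≤ cnt B N) ∧
      (∀ n : ℕ, ∃ N : ℕ+, n < (N : ℕ) ∧ (H N : ℕ) ≤ cnt C N) := by
  classical
  obtain ⟨q, hq⟩ := exists_ultrafilter H hlin
  -- the colour seen by `b` along `q`
  have hcol : ∀ b : ℕ+, ∃ i : Fin 2, {c | χ (b + c) = i} ∈ q := by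
    intro b
    by_cases h : {c | χ (b + c) = 0} ∈ q
    · exact ⟨0, h⟩
    · refine ⟨1, ?_⟩
      have h1 := Ultrafilter.compl_mem_iff_notMem.mpr h
      filter_upwards [h1] with c hc
      have hc' : χ (b + c) ≠ 0 := hc
      show χ (b + c) = 1
      have := (χ (b + c)).isLt
      apply Fin.ext
      have h2 : (χ (b + c)).val ≠ 0 := fun h3 => hc' (Fin.ext h3)
      show (χ (b + c)).val = 1
      omega
  choose col hcol using hcol
  have hi : ∃ i : Fin 2, {b | col b = i} ∈ q := by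
    by_cases h : {b | col b = 0} ∈ q
    · exact ⟨0, h⟩
    · refine ⟨1, ?_⟩
      have h1 := Ultrafilter.compl_mem_iff_notMem.mpr h
      filter_upwards [h1] with c hc
      have hc' : col c ≠ 0 := hc
      show col c = 1
      have := (col c).isLt
      apply Fin.ext
      have h2 : (col c).val ≠ 0 := fun h3 => hc' (Fin.ext h3)
      show (col c).val = 1
      omega
  obtain ⟨i, hi⟩ := hi
  set X : Set ℕ+ := {b | col b = i} with hX
  have hXq : ∀ b ∈ X, {c | χ (b + c) = i} ∈ q := by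
    intro b hb
    have h1 := hcol b
    have h2 : col b = i := hb
    rwa [h2] at h1
  -- valid finite states
  let Valid : Finset ℕ+ × Finset ℕ+ → Prop := fun s =>
    (∀ b ∈ s.1, b ∈ X) ∧ (∀ c ∈ s.2, c ∈ X) ∧ ∀ b ∈ s.1, ∀ c ∈ s.2, χ (b + c) = i
  have step : ∀ s : Finset ℕ+ × Finset ℕ+, Valid s → ∀ n : ℕ, ∃ s' : Finset ℕ+ × Finset ℕ+,
      Valid s' ∧ s.1 ⊆ s'.1 ∧ s.2 ⊆ s'.2 ∧
      (∃ N : ℕ+, n < (N : ℕ) ∧ (H N : ℕ) ≤ cnt (s'.1 : Set ℕ+) N) ∧
      (∃ N : ℕ+, n < (N : ℕ) ∧ (H N : ℕ) ≤ cnt (s'.2 : Set ℕ+) N) := by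
    rintro ⟨Bf, Cf⟩ ⟨hB, hC, hBC⟩ n
    simp only at hB hC hBC
    have hZ : X ∩ ⋂ c ∈ Cf, {b | χ (b + c) = i} ∈ q := by
      apply Filter.inter_mem hi
      rw [Filter.biInter_finset_mem]
      intro c hc
      have := hXq c (hC c hc)
      filter_upwards [this] with b hb
      show χ (b + c) = i
      rw [add_comm]; exact hb
    obtain ⟨N, hN1, hN2⟩ := large_of_not_small H (hq _ hZ) n
    set Z := X ∩ ⋂ c ∈ Cf, {b | χ (b + c) = i} with hZdef
    set B' := Bf ∪ (finite_inter_Icc Z N).toFinset with hB'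
    have hB'X : ∀ b ∈ B', b ∈ X := by
      intro b hb
      rw [hB', Finset.mem_union, Set.Finite.mem_toFinset] at hb
      rcases hb with hb | hb
      · exact hB b hb
      · exact hb.1.1
    have hB'C : ∀ b ∈ B', ∀ c ∈ Cf, χ (b + c) = i := by
      intro b hb c hc
      rw [hB', Finset.mem_union, Set.Finite.mem_toFinset] at hb
      rcases hb with hb | hb
      · exact hBC b hb c hc
      · have h1 := hb.1.2
        rw [Set.mem_iInter₂] at h1
        exact h1 c hc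
    have hW : X ∩ ⋂ b ∈ B', {c | χ (b + c) = i} ∈ q := by
      apply Filter.inter_mem hi
      rw [Filter.biInter_finset_mem]
      intro b hb
      exact hXq b (hB'X b hb)
    obtain ⟨M, hM1, hM2⟩ := large_of_not_small H (hq _ hW) n
    set W := X ∩ ⋂ b ∈ B', {c | χ (b + c) = i} with hWdef
    refine ⟨(B', Cf ∪ (finite_inter_Icc W M).toFinset), ⟨hB'X, ?_, ?_⟩, ?_, ?_, ?_, ?_⟩
    · intro c hc
      rw [Finset.mem_union, Set.Finite.mem_toFinset] at hc
      rcases hc with hc | hc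
      · exact hC c hc
      · exact hc.1.1
    · intro b hb c hc
      rw [Finset.mem_union, Set.Finite.mem_toFinset] at hc
      rcases hc with hc | hc
      · exact hB'C b hb c hc
      · have h1 := hc.1.2
        rw [Set.mem_iInter₂] at h1
        exact h1 b hb
    · exact Finset.subset_union_left
    · exact Finset.subset_union_left
    · refine ⟨N, hN1, ?_⟩
      rw [← cnt_inter_Icc] at hN2
      refine hN2.trans (cnt_mono ?_ N)
      intro b hb
      simp only [hB', Finset.coe_union, Set.Finite.coe_toFinset]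
      exact Or.inr hb
    · refine ⟨M, hM1, ?_⟩
      rw [← cnt_inter_Icc] at hM2
      refine hM2.trans (cnt_mono ?_ M)
      intro b hb
      simp only [Finset.coe_union, Set.Finite.coe_toFinset]
      exact Or.inr hb
  choose! f hf using step
  let sq : ℕ → Finset ℕ+ × Finset ℕ+ := fun n =>
    Nat.rec (∅, ∅) (fun n s => f s n) n
  have sq_succ : ∀ n, sq (n + 1) = f (sq n) n := fun n => rfl
  have hvalid : ∀ n, Valid (sq n) := by
    intro n
    induction n with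
    | zero =>
      show Valid (∅, ∅)
      exact ⟨by simp, by simp, by simp⟩
    | succ n ih => rw [sq_succ]; exact (hf (sq n) ih n).1
  have hmono1 : ∀ n m, n ≤ m → (sq n).1 ⊆ (sq m).1 := by
    intro n m hnm
    induction hnm with
    | refl => exact Finset.Subset.refl _
    | step h ih =>
      refine ih.trans ?_
      rw [sq_succ]
      exact (hf _ (hvalid _) _).2.1
  have hmono2 : ∀ n m, n ≤ m → (sq n).2 ⊆ (sq m).2 := by
    intro n m hnm
    induction hnm with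
    | refl => exact Finset.Subset.refl _
    | step h ih =>
      refine ih.trans ?_
      rw [sq_succ]
      exact (hf _ (hvalid _) _).2.2.1
  set B : Set ℕ+ := ⋃ n, ((sq n).1 : Set ℕ+) with hBdef
  set C : Set ℕ+ := ⋃ n, ((sq n).2 : Set ℕ+) with hCdef
  have hBlarge : ∀ n : ℕ, ∃ N : ℕ+, n < (N : ℕ) ∧ (H N : ℕ) ≤ cnt B N := by
    intro n
    obtain ⟨N, h1, h2⟩ := (hf (sq n) (hvalid n) n).2.2.2.1
    refine ⟨N, h1, h2.trans (cnt_mono ?_ N)⟩
    rw [← sq_succ]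
    exact Set.subset_iUnion (fun n => ((sq n).1 : Set ℕ+)) (n + 1)
  have hClarge : ∀ n : ℕ, ∃ N : ℕ+, n < (N : ℕ) ∧ (H N : ℕ) ≤ cnt C N := by
    intro n
    obtain ⟨N, h1, h2⟩ := (hf (sq n) (hvalid n) n).2.2.2.2
    refine ⟨N, h1, h2.trans (cnt_mono ?_ N)⟩
    rw [← sq_succ]
    exact Set.subset_iUnion (fun n => ((sq n).2 : Set ℕ+)) (n + 1)
  have hinf : ∀ D : Set ℕ+, (∀ n : ℕ, ∃ N : ℕ+, n < (N : ℕ) ∧ (H N : ℕ) ≤ cnt D N) →
      D.Infinite := by
    intro D hD hfin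
    have h1 : ∀ᶠ N in atTop, (⟨D.ncard + 1, Nat.succ_pos _⟩ : ℕ+) ≤ H N :=
      hH.2.eventually (eventually_ge_atTop _)
    obtain ⟨N₀, hN₀⟩ := eventually_atTop.mp h1
    obtain ⟨N, hN1, hN2⟩ := hD N₀
    have h2 := hN₀ N (by exact_mod_cast hN1.le)
    have h3 : D.ncard + 1 ≤ (H N : ℕ) := h2
    have h4 := cnt_le_ncard hfin N
    omega
  refine ⟨B, C, hinf B hBlarge, hinf C hClarge, ⟨i, ?_⟩, hBlarge, hClarge⟩
  intro b hb c hc
  rw [hBdef, Set.mem_iUnion] at hb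
  rw [hCdef, Set.mem_iUnion] at hc
  obtain ⟨n, hn⟩ := hb
  obtain ⟨m, hm⟩ := hc
  exact (hvalid (max n m)).2.2 b (hmono1 _ _ (le_max_left n m) hn) c
    (hmono2 _ _ (le_max_right n m) hm)

theorem not_hasSparseColoring (hH : IsGrowth H)
    (hlin : ¬ ∃ ε : ℝ, 0 < ε ∧ ∀ N : ℕ+, ε * ((N : ℕ) : ℝ) ≤ ((H N : ℕ) : ℝ)) :
    ¬ HasSparseColoring H := by
  rintro ⟨χ, hχ⟩
  obtain ⟨B, C, hB, hC, hmono, hBl, -⟩ := exists_dense_pair H hH hlin χ
  have hfin := hχ B C hB hC hmono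
  obtain ⟨M, hM⟩ := hfin.bddAbove
  obtain ⟨N, hN1, hN2⟩ := hBl M
  have : N ∈ {N : ℕ+ | ¬ (max (cnt B N) (cnt C N) < (H N : ℕ))} := by
    show ¬ _
    rw [not_lt]
    exact hN2.trans (le_max_left _ _)
  have h1 := hM this
  have h2 : (N : ℕ) ≤ (M : ℕ) := by exact_mod_cast h1
  omega

end negative

section positive

theorem cnt_eq_nat (B : Set ℕ+) (N : ℕ+) :
    cnt B N = (((fun b : ℕ+ => (b : ℕ)) '' B) ∩ Set.Icc 1 (N : ℕ)).ncard := by
  unfold cnt
  have h : ((fun b : ℕ+ => (b : ℕ)) '' B) ∩ Set.Icc 1 (N : ℕ) =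
      (fun b : ℕ+ => (b : ℕ)) '' (B ∩ Set.Icc 1 N) := by
    ext x
    constructor
    · rintro ⟨⟨b, hb, rfl⟩, h1, h2⟩
      exact ⟨b, ⟨hb, one_le, by exact_mod_cast h2⟩, rfl⟩
    · rintro ⟨b, ⟨hb, h1, h2⟩, rfl⟩
      exact ⟨⟨b, hb, rfl⟩, b.pos, by exact_mod_cast h2⟩
  rw [h, Set.ncard_image_of_injective _ PNat.coe_injective]

/-- the Rudin-Shapiro coloring -/
noncomputable def rsCol (n : ℕ+) : Fin 2 := if rs (n : ℕ) = 1 then 0 else 1

theorem hasSparseColoring (H : ℕ+ → ℕ+)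
    (hlin : ∃ ε : ℝ, 0 < ε ∧ ∀ N : ℕ+, ε * ((N : ℕ) : ℝ) ≤ ((H N : ℕ) : ℝ)) :
    HasSparseColoring H := by
  obtain ⟨ε, hε, hH⟩ := hlin
  refine ⟨rsCol, fun B C hB hC hmono => ?_⟩
  obtain ⟨i, hi⟩ := hmono
  set B' : Set ℕ := (fun b : ℕ+ => (b : ℕ)) '' B with hB'
  set C' : Set ℕ := (fun b : ℕ+ => (b : ℕ)) '' C with hC'
  have hB'inf : B'.Infinite := hB.image PNat.coe_injective.injOn
  have hC'inf : C'.Infinite := hC.image PNat.coe_injective.injOn
  have hσ : ∃ σ : ℤ, (σ = 1 ∨ σ = -1) ∧ ∀ b ∈ B', ∀ c ∈ C', rs (b + c) = σ := by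
    by_cases h0 : i = 0
    · refine ⟨1, Or.inl rfl, ?_⟩
      rintro _ ⟨b, hb, rfl⟩ _ ⟨c, hc, rfl⟩
      have h1 := hi b hb c hc
      unfold rsCol at h1
      rw [h0] at h1
      by_contra hne
      rw [if_neg (by simpa using hne)] at h1
      exact absurd h1 (by decide)
    · refine ⟨-1, Or.inr rfl, ?_⟩
      rintro _ ⟨b, hb, rfl⟩ _ ⟨c, hc, rfl⟩
      have h1 := hi b hb c hc
      unfold rsCol at h1
      rcases rs_eq_or ((b : ℕ) + (c : ℕ)) with h2 | h2
      · exfalso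
        rw [if_pos (by simpa using h2)] at h1
        exact h0 h1.symm
      · exact h2
  obtain ⟨σ, hσ1, hσ2⟩ := hσ
  have hBd := density_zero B' C' hC'inf σ hσ1 hσ2 (ε / 2) (by positivity)
  have hCd := density_zero C' B' hB'inf σ hσ1
    (fun c hc b hb => by rw [add_comm]; exact hσ2 b hb c hc) (ε / 2) (by positivity)
  obtain ⟨M, hM⟩ := eventually_atTop.mp (hBd.and hCd)
  apply (Set.finite_Icc (1 : ℕ+) ⟨M + 1, Nat.succ_pos _⟩).subset
  intro N hN
  refine ⟨one_le, ?_⟩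
  by_contra hcon
  have hlt : M + 1 < (N : ℕ) := by
    have : (⟨M + 1, Nat.succ_pos _⟩ : ℕ+) < N := not_le.mp hcon
    exact_mod_cast this
  obtain ⟨h1, h2⟩ := hM (N : ℕ) (by omega)
  rw [← cnt_eq_nat] at h1 h2
  have hN' : ¬ (max (cnt B N) (cnt C N) < (H N : ℕ)) := hN
  apply hN'
  have h3 := hH N
  have h4 : (0 : ℝ) < ((N : ℕ) : ℝ) := by exact_mod_cast N.pos
  rw [max_lt_iff]
  constructor
  · have : ((cnt B N : ℕ) : ℝ) < ((H N : ℕ) : ℝ) := by nlinarith
    exact_mod_cast this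
  · have : ((cnt C N : ℕ) : ℝ) < ((H N : ℕ) : ℝ) := by nlinarith
    exact_mod_cast this

end positive

/-- a sublinear growth function: the integer part of the square root -/
def sqrtGrowth (N : ℕ+) : ℕ+ := ⟨Nat.sqrt N, Nat.sqrt_pos.mpr N.pos⟩

theorem isGrowth_sqrt : IsGrowth sqrtGrowth := by
  constructor
  · intro a b hab
    show Nat.sqrt a ≤ Nat.sqrt b
    exact Nat.sqrt_le_sqrt (by exact_mod_cast hab)
  · rw [tendsto_atTop]
    intro b
    rw [eventually_atTop]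
    refine ⟨b * b, fun N hN => ?_⟩
    show (b : ℕ) ≤ Nat.sqrt N
    rw [Nat.le_sqrt]
    exact_mod_cast hN

theorem sqrt_not_linear :
    ¬ ∃ ε : ℝ, 0 < ε ∧ ∀ N : ℕ+, ε * ((N : ℕ) : ℝ) ≤ ((sqrtGrowth N : ℕ) : ℝ) := by
  rintro ⟨ε, hε, h⟩
  obtain ⟨m, hm⟩ := exists_nat_gt (1 / ε)
  have hm0 : (0 : ℝ) < m := lt_trans (by positivity) hm
  have hm1 : 0 < m := by exact_mod_cast hm0
  have h1 := h ⟨m * m, Nat.mul_pos hm1 hm1⟩
  have h2 : ((sqrtGrowth ⟨m * m, Nat.mul_pos hm1 hm1⟩ : ℕ+) : ℕ) = m := by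
    show Nat.sqrt (m * m) = m
    exact Nat.sqrt_eq m
  rw [h2] at h1
  simp only [PNat.mk_coe, Nat.cast_mul] at h1
  have h3 : 1 < ε * m := by
    have := (div_lt_iff₀ hε).mp hm
    linarith
  nlinarith

/-- **Answer to Q1.** The asserted 2-coloring exists for a growth function `H` exactly when `H`
grows at least linearly; in particular the assertion fails for some growth function. -/
theorem result :
    (∀ H : ℕ+ → ℕ+, IsGrowth H →
      (HasSparseColoring H ↔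
        ∃ ε : ℝ, 0 < ε ∧ ∀ N : ℕ+, ε * ((N : ℕ) : ℝ) ≤ ((H N : ℕ) : ℝ))) ∧
    ¬ (∀ H : ℕ+ → ℕ+, IsGrowth H → HasSparseColoring H) := by
  refine ⟨fun H hH => ⟨fun h => ?_, hasSparseColoring H⟩, fun h => ?_⟩
  · by_contra hlin
    exact not_hasSparseColoring H hH hlin h
  · exact not_hasSparseColoring sqrtGrowth isGrowth_sqrt sqrt_not_linear
      (h sqrtGrowth isGrowth_sqrt)

end Pool.Agent.Results.MP_870dc7_co.LinearThreshold
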